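import Mathlib
import Pool.Agent.Run7.h246.CN.U4

set_option autoImplicit false

/-!
# Squarefree congruent numbers `≡ 5, 6, 7` modulo `8` in almost all intervals of length `t ^ (9/16)`

Let `r ∈ {5, 6, 7}` and let the residue class `a` modulo `M` contain a squarefree number `≡ r` modulo
`8`.  There is `C` such that for all `X ≥ 1` and all real `1 ≤ K ≤ X ^ (1/128)`, all but at most
`C X / K` of the integers `t ≤ X` have a squarefree congruent number `n ≡ r` modulo `8`, `n ≡ a`
modulo `M` in the interval `[t, t + K ^ 27 t ^ (9/16)]`.  In particular, for every `θ > 9/16` there is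
a power saving in the number of exceptional intervals `[t, t + t ^ θ]`.

Proof.  Let `β ≡ r` modulo `8` be squarefree in the class and let `W` be a multiple of `16 M β` and
of all primes up to `128`.  For `x ≡ 1` and `y ≡ 0` modulo `W` the number
`n = β x ^ 4 - β ^ 3 y ^ 4 = β (x ^ 2 - β y ^ 2) (x ^ 2 + β y ^ 2)` is `≡ β` modulo `W` and it is the
area of the triangle with legs `(x ^ 4 - β ^ 2 y ^ 4) / (x y)` and `2 β x y`.  Let `N` be the integer
part of `K`.  For given `t` let `x` run through the first `N` members of the class `1` modulo `W` with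
`β x ^ 4 ≥ t` and, for each of them, `y` through `N ^ 20` consecutive multiples of `W` from
`((β x ^ 4 - t) / β ^ 3) ^ (1/4)` on; all these `n` lie in an interval of length `X ^ (9/16) N ^ 25`
next to `t`.  Common prime factors `p ≤ N ^ 20` of `x` and `y` and squares of primes `p ≤ N ^ 10` spoil
at most half of these pairs, for every `t`.  The number of all coprime pairs in the box for which a
square `p ^ 2` with `p > N ^ 10` divides `x ^ 2 ± β y ^ 2` is smaller than the number of pairs in the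
box by a factor `N ^ 8`, since in a class of slopes modulo `p ^ 2` two slopes `y / x` differ by at
least `p ^ 2 / (x x')`; there are still fewer pairs with a common prime factor above `N ^ 20`.
Double counting.
-/

namespace Pool.Agent.Results.MP_8efaaa_nt.AlmostAllIntervals

/-- `x² + a y² = z²`, `x² - a y² = t²` is solvable in positive integers -/
def Congruent (a : ℕ) : Prop :=
  ∃ x y z t : ℕ, 0 < x ∧ 0 < y ∧ 0 < z ∧ 0 < t ∧ x ^ 2 + a * y ^ 2 = z ^ 2 ∧
    x ^ 2 = a * y ^ 2 + t ^ 2

lemma congruent_of (n : ℕ) (h : Pool.Agent.Run7.H246.CN.Cong n) : Congruent n := by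
  obtain ⟨a, b, c, ha, hb, hc, h1, h2⟩ := h
  -- common denominator
  obtain ⟨A, B, C, D, hA, hB, hC, hD, eA, eB, eC⟩ : ∃ A B C D : ℕ, 0 < A ∧ 0 < B ∧ 0 < C ∧
      0 < D ∧ a = (A : ℚ) / D ∧ b = (B : ℚ) / D ∧ c = (C : ℚ) / D := by
    have na : (0 : ℤ) < a.num := Rat.num_pos.2 ha
    have nb : (0 : ℤ) < b.num := Rat.num_pos.2 hb
    have nc : (0 : ℤ) < c.num := Rat.num_pos.2 hc
    have ea : ((a.num.natAbs : ℕ) : ℚ) = a.num := by
      rw [Nat.cast_natAbs, abs_of_pos na]
    have eb : ((b.num.natAbs : ℕ) : ℚ) = b.num := by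
      rw [Nat.cast_natAbs, abs_of_pos nb]
    have ec : ((c.num.natAbs : ℕ) : ℚ) = c.num := by
      rw [Nat.cast_natAbs, abs_of_pos nc]
    have da : (a.den : ℚ) ≠ 0 := by exact_mod_cast a.den_nz
    have db : (b.den : ℚ) ≠ 0 := by exact_mod_cast b.den_nz
    have dc : (c.den : ℚ) ≠ 0 := by exact_mod_cast c.den_nz
    have qa := Rat.num_div_den a
    have qb := Rat.num_div_den b
    have qc := Rat.num_div_den c
    refine ⟨a.num.natAbs * (b.den * c.den), b.num.natAbs * (a.den * c.den),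
      c.num.natAbs * (a.den * b.den), a.den * b.den * c.den, ?_, ?_, ?_, ?_, ?_, ?_, ?_⟩
    · have := a.pos; have := b.pos; have := c.pos
      have : 0 < a.num.natAbs := by omega
      positivity
    · have := a.pos; have := b.pos; have := c.pos
      have : 0 < b.num.natAbs := by omega
      positivity
    · have := a.pos; have := b.pos; have := c.pos
      have : 0 < c.num.natAbs := by omega
      positivity
    · have := a.pos; have := b.pos; have := c.pos
      positivity
    · push_cast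
      rw [ea]
      nth_rewrite 1 [← qa]
      field_simp
    · push_cast
      rw [eb]
      nth_rewrite 1 [← qb]
      field_simp
    · push_cast
      rw [ec]
      nth_rewrite 1 [← qc]
      field_simp
  have hDq : (D : ℚ) ≠ 0 := by positivity
  rw [eA, eB, eC] at h1
  rw [eA, eB] at h2
  have g1 : A ^ 2 + B ^ 2 = C ^ 2 := by
    have : (A : ℚ) ^ 2 + (B : ℚ) ^ 2 = (C : ℚ) ^ 2 := by
      field_simp at h1
      exact h1
    exact_mod_cast this
  have g2 : 2 * n * D ^ 2 = A * B := by
    have : 2 * (n : ℚ) * (D : ℚ) ^ 2 = A * B := by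
      field_simp at h2
      linarith
    exact_mod_cast this
  have hne : A ≠ B := by
    intro hAB
    rw [hAB] at g1
    have g3 : (2 : ℕ) * B ^ 2 = C ^ 2 := by omega
    have h4 : Irrational (Real.sqrt 2) := irrational_sqrt_two
    apply h4
    refine ⟨(C : ℚ) / B, ?_⟩
    have hB' : (B : ℝ) ≠ 0 := by positivity
    push_cast
    symm
    rw [Real.sqrt_eq_iff_mul_self_eq (by norm_num) (by positivity)]
    have : (2 : ℝ) * (B : ℝ) ^ 2 = (C : ℝ) ^ 2 := by exact_mod_cast g3
    field_simp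
    linarith
  rcases lt_or_gt_of_ne hne with hlt | hlt
  · obtain ⟨s, rfl⟩ := Nat.exists_eq_add_of_lt hlt
    refine ⟨C, 2 * D, 2 * A + s + 1, s + 1, hC, by positivity, by positivity, by positivity, ?_, ?_⟩
    · nlinarith
    · nlinarith
  · obtain ⟨s, rfl⟩ := Nat.exists_eq_add_of_lt hlt
    refine ⟨C, 2 * D, 2 * B + s + 1, s + 1, hC, by positivity, by positivity, by positivity, ?_, ?_⟩
    · nlinarith
    · nlinarith

/-- **Squarefree congruent numbers of the classes `5, 6, 7` modulo `8` in almost all intervals of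
length `t ^ (9/16)`.**  Let `r ∈ {5, 6, 7}` and let the residue class `a` modulo `M` contain a
squarefree number `≡ r` modulo `8`.  There is `C > 0` such that for all `X ≥ 1` and all real `K ≥ 1`
with `K ^ 128 ≤ X` there are at most `C X / K` integers `0 ≤ t ≤ X` for which the interval
`[t, t + K ^ 27 t ^ (9/16)]` contains no squarefree congruent number `n ≡ r` modulo `8`, `n ≡ a`
modulo `M`. -/
theorem result (M : ℕ) (hM : 0 < M) (r : ℕ)
    (hr : r = 5 ∨ r = 6 ∨ r = 7) (a : ℕ)
    (ha : ∃ k : ℕ, Squarefree k ∧ k % 8 = r ∧ k ≡ a [MOD M]) :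
    ∃ C : ℝ, 0 < C ∧ ∀ X : ℕ, 1 ≤ X → ∀ K : ℝ, 1 ≤ K → K ^ 128 ≤ X →
      ({t : ℕ | t ≤ X ∧ ¬ ∃ n : ℕ, t ≤ n ∧ (n : ℝ) ≤ t + K ^ 27 * (t : ℝ) ^ (9 / 16 : ℝ) ∧
        Squarefree n ∧ n % 8 = r ∧ n ≡ a [MOD M] ∧ Congruent n}.ncard : ℝ) ≤ C * X / K := by
  have _ := hr
  obtain ⟨k, hk, hkr, hka⟩ := ha
  obtain ⟨C, hC, h⟩ := Pool.Agent.Run7.H246.CN.main_unif k (8 * M) hk (by omega)
  refine ⟨C, hC, ?_⟩
  intro X hX K hK hKX
  have hfin : {t : ℕ | t ≤ X ∧ ¬ ∃ n : ℕ, t ≤ n ∧
      (n : ℝ) ≤ t + K ^ 27 * (t : ℝ) ^ (9 / 16 : ℝ) ∧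
      Squarefree n ∧ n % 8 = r ∧ n ≡ a [MOD M] ∧ Congruent n}.Finite := by
    apply (Set.finite_Iic X).subset
    intro t ht
    exact ht.1
  rw [Set.ncard_eq_toFinset_card _ hfin]
  apply h X hX K hK hKX
  intro t ht
  rw [Set.Finite.mem_toFinset] at ht
  refine ⟨ht.1, ?_⟩
  rintro ⟨n, h1, h2, h3, h4, h5⟩
  apply ht.2
  have h8 : n % 8 = r := by
    have h9 : n ≡ k [MOD 8] := h4.of_dvd ⟨M, rfl⟩
    have h10 : n % 8 = k % 8 := h9
    omega
  exact ⟨n, h1, h2, h3, h8, (h4.of_dvd (Dvd.intro_left 8 rfl)).trans hka, congruent_of n h5⟩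

end Pool.Agent.Results.MP_8efaaa_nt.AlmostAllIntervals
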