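import Mathlib
import Pool.Agent.Run7.h439.CD.D

/-!
# Congruent numbers at which a real polynomial is close to a prescribed number modulo one
-/

set_option autoImplicit false

namespace Pool.Agent.Results.MP_8efaaa_nt.DiophantineApproximation

open Finset Polynomial
open Pool.Agent.Run7.h439.CD (Congruent main_lead)

/-- `a` is a congruent number: `x² + a y² = z²` and `x² - a y² = t²` have a common solution in
positive integers -/
def IsCongruent (a : ℕ) : Prop := ∃ x y z t : ℕ, 0 < x ∧ 0 < y ∧ 0 < z ∧ 0 < t ∧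
  x ^ 2 + a * y ^ 2 = z ^ 2 ∧ x ^ 2 = a * y ^ 2 + t ^ 2

/-- the distance of `x` to the nearest integer is smaller than `ρ` -/
def CloseModOne (x ρ : ℝ) : Prop := ∃ z : ℤ, |x - z| < ρ

lemma split : ∀ (k : ℕ) (P : ℝ[X]), P.natDegree ≤ k → (∃ i, 1 ≤ i ∧ Irrational (P.coeff i)) →
    ∃ P1 : ℝ[X], 1 ≤ P1.natDegree ∧ P1.natDegree ≤ k ∧ Irrational P1.leadingCoeff ∧
      ∃ D : ℕ, 1 ≤ D ∧ ∀ n s : ℕ, n ≡ s [MOD D] →
        ∃ z : ℤ, P.eval (n : ℝ) = P1.eval (n : ℝ) + (P.eval (s : ℝ) - P1.eval (s : ℝ)) + z := by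
  intro k
  induction k with
  | zero =>
    intro P hP hi
    obtain ⟨i, hi1, hi2⟩ := hi
    have h0 : P.coeff i = 0 := coeff_eq_zero_of_natDegree_lt (by omega)
    rw [h0] at hi2
    exact absurd hi2 not_irrational_zero
  | succ k ih =>
    intro P hP hi
    obtain ⟨i, hi1, hi2⟩ := hi
    have hN1 : 1 ≤ P.natDegree := by
      by_contra hcon
      have h0 : P.coeff i = 0 := coeff_eq_zero_of_natDegree_lt (by omega)
      rw [h0] at hi2
      exact not_irrational_zero hi2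
    by_cases hlead : Irrational P.leadingCoeff
    · exact ⟨P, hN1, hP, hlead, 1, le_rfl, fun n s _ => ⟨0, by push_cast; ring⟩⟩
    · unfold Irrational at hlead
      push Not at hlead
      obtain ⟨r, hr⟩ := hlead
      have hine : i ≠ P.natDegree := by
        rintro rfl
        exact hi2 ⟨r, hr⟩
      have hcoef : P.eraseLead.coeff i = P.coeff i := eraseLead_coeff_of_ne i hine
      have hdeg : P.eraseLead.natDegree ≤ k := by
        rcases P.eraseLead_natDegree_lt_or_eraseLead_eq_zero with h | h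
        · omega
        · rw [h, natDegree_zero]; exact Nat.zero_le _
      obtain ⟨P1, h1, h2, h3, D, hD, h4⟩ := ih P.eraseLead hdeg ⟨i, hi1, by rw [hcoef]; exact hi2⟩
      refine ⟨P1, h1, by omega, h3, D * r.den, Nat.mul_pos hD r.pos, ?_⟩
      intro n s hns
      obtain ⟨z, hz⟩ := h4 n s (hns.of_mul_right _)
      have hev : ∀ x : ℝ, P.eval x = P.eraseLead.eval x + r * x ^ P.natDegree := by
        intro x
        conv_lhs => rw [← P.eraseLead_add_C_mul_X_pow]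
        rw [eval_add, eval_mul, eval_C, eval_pow, eval_X, ← hr]
      have hdvd : (r.den : ℤ) ∣ (n : ℤ) ^ P.natDegree - (s : ℤ) ^ P.natDegree := by
        have h5 : (n : ℤ) ≡ (s : ℤ) [ZMOD (r.den : ℤ)] :=
          (Int.natCast_modEq_iff).2 (hns.of_mul_left _)
        exact (h5.pow P.natDegree).symm.dvd
      obtain ⟨w, hw⟩ := hdvd
      refine ⟨z + r.num * w, ?_⟩
      have hw' : (n : ℝ) ^ P.natDegree - (s : ℝ) ^ P.natDegree = r.den * w := by exact_mod_cast hw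
      have hrd : (r : ℝ) * r.den = r.num := by exact_mod_cast Rat.mul_den_eq_num r
      have hkey : (r : ℝ) * (n : ℝ) ^ P.natDegree - r * (s : ℝ) ^ P.natDegree = r.num * w := by
        calc (r : ℝ) * (n : ℝ) ^ P.natDegree - r * (s : ℝ) ^ P.natDegree
            = r * ((n : ℝ) ^ P.natDegree - (s : ℝ) ^ P.natDegree) := by ring
          _ = (r * r.den) * w := by rw [hw']; ring
          _ = _ := by rw [hrd]
      rw [hev (n : ℝ), hev (s : ℝ), hz]
      push_cast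
      linarith

open scoped Classical in
/-- the statement for polynomials of degree `κ` with irrational leading coefficient -/
def Stmt (κ : ℕ) (ε δ : ℝ) : Prop :=
    ∀ P : ℝ[X], P.natDegree = κ → Irrational P.leadingCoeff → ∀ β : ℝ, ∀ q a : ℕ, 1 ≤ q →
      Squarefree (Nat.gcd a (8 * q)) → ∀ X0 : ℕ, ∃ X, X0 ≤ X ∧ 1 ≤ X ∧
        (X : ℝ) ^ (1 / 3 - ε) ≤ (((Icc 1 X).filter (fun n : ℕ => n ≡ a [MOD 8 * q] ∧
          Squarefree n ∧ Congruent n ∧
          ∃ z : ℤ, |P.eval (n : ℝ) - β - z| < (n : ℝ) ^ (-δ))).card : ℝ)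

open scoped Classical in
lemma Stmt.mono {κ : ℕ} {ε δ δ' : ℝ} (h : Stmt κ ε δ) (hδ : δ' ≤ δ) : Stmt κ ε δ' := by
  intro P hP hirr β q a hq hg X0
  obtain ⟨X, h1, h2, h3⟩ := h P hP hirr β q a hq hg X0
  refine ⟨X, h1, h2, h3.trans ?_⟩
  refine Nat.cast_le.2 (card_le_card ?_)
  intro n hn
  rw [mem_filter, mem_Icc] at hn ⊢
  obtain ⟨hn1, hn2, hn3, hn4, z, hz⟩ := hn
  refine ⟨hn1, hn2, hn3, hn4, z, lt_of_lt_of_le hz ?_⟩
  exact Real.rpow_le_rpow_of_exponent_le (by exact_mod_cast hn1.1) (by linarith)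

lemma exists_uniform (ε : ℝ) (hε : 0 < ε) (k : ℕ) :
    ∃ δ : ℝ, 0 < δ ∧ ∀ κ, 1 ≤ κ → κ ≤ k → Stmt κ ε δ := by
  induction k with
  | zero => exact ⟨1, one_pos, fun κ h1 h2 => by omega⟩
  | succ k ih =>
    obtain ⟨δ1, hδ1, h1⟩ := ih
    obtain ⟨δ2, hδ2, h2⟩ := main_lead (k + 1) (by omega) ε hε
    refine ⟨min δ1 δ2, lt_min hδ1 hδ2, fun κ hκ1 hκ2 => ?_⟩
    rcases Nat.lt_or_ge κ (k + 1) with h | h
    · exact (h1 κ hκ1 (by omega)).mono (min_le_left _ _)
    · have : κ = k + 1 := by omega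
      subst this
      exact Stmt.mono h2 (min_le_right _ _)

open scoped Classical in
/-- For every `k` and every `ε > 0` there is `δ > 0` such that for every real polynomial `P` of
degree at most `k` with an irrational coefficient other than the constant one, every real `β`, every
squarefree `s` and every `M ≥ 1`, there are arbitrarily large `X` for which at least `X^(1/3 - ε)`
squarefree congruent numbers `n ≤ X` lie in the class of `s` modulo `8 M` and satisfy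
`‖P(n) - β‖ < n^(-δ)`. -/
theorem result (k : ℕ) (ε : ℝ) (hε : 0 < ε) : ∃ δ : ℝ, 0 < δ ∧
    ∀ P : ℝ[X], P.natDegree ≤ k → (∃ i, 1 ≤ i ∧ Irrational (P.coeff i)) →
      ∀ β : ℝ, ∀ s M : ℕ, Squarefree s → 1 ≤ M → ∀ X0 : ℕ, ∃ X : ℕ, X0 ≤ X ∧
        (X : ℝ) ^ (1 / 3 - ε) ≤ (((Icc 1 X).filter (fun n : ℕ =>
          n ≡ s [MOD 8 * M] ∧ Squarefree n ∧ IsCongruent n ∧
          CloseModOne (P.eval (n : ℝ) - β) ((n : ℝ) ^ (-δ)))).card : ℝ) := by
  obtain ⟨δ, hδ, hall⟩ := exists_uniform ε hε k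
  refine ⟨δ, hδ, ?_⟩
  intro P hP hi β s M hs hM X0
  obtain ⟨P1, h1, h2, h3, D, hD, h4⟩ := split k P hP hi
  obtain ⟨X, hX0, _, hX⟩ := hall P1.natDegree h1 h2 P1 rfl h3
    (β - (P.eval (s : ℝ) - P1.eval (s : ℝ))) (M * D) s (Nat.mul_pos hM hD)
    (hs.squarefree_of_dvd (Nat.gcd_dvd_left _ _)) X0
  refine ⟨X, hX0, hX.trans ?_⟩
  refine Nat.cast_le.2 (card_le_card ?_)
  intro n hn
  rw [mem_filter] at hn ⊢
  obtain ⟨hn1, hn2, hn3, hn4, z, hz⟩ := hn
  have e8 : 8 * (M * D) = (8 * M) * D := by ring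
  rw [e8] at hn2
  obtain ⟨w, hw⟩ := h4 n s (hn2.of_mul_left _)
  refine ⟨hn1, hn2.of_mul_right _, hn3, hn4, z + w, ?_⟩
  have e1 : P.eval (n : ℝ) - β - ((z + w : ℤ) : ℝ) =
      P1.eval (n : ℝ) - (β - (P.eval (s : ℝ) - P1.eval (s : ℝ))) - z := by
    rw [hw]; push_cast; ring
  rw [e1]
  exact hz

end Pool.Agent.Results.MP_8efaaa_nt.DiophantineApproximation
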