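import Mathlib
import Pool.Agent.Run7.h681.CongSeven
import Pool.Agent.Run7.h681.CongPatternFin

set_option autoImplicit false

/-!
# Squarefree congruent numbers at distance seven, and patterns of the classes `5, 6, 7` modulo `8`

(1) There is `c > 0` such that for all large `X` at least `c X ^ (1/3)` integers `n ≤ X` are such that
`n` and `n + 7` are both squarefree and congruent, with `n ≡ 6` and `n + 7 ≡ 5` modulo `8`; the same
holds with `n ≡ 7` and `n + 7 ≡ 6` modulo `8`.  So the classes `5` and `6`, and the classes `6` and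
`7`, contain infinitely many pairs of squarefree congruent numbers at distance exactly `7`.

(2) For every finite sequence `r_1, ..., r_k` of classes from `5, 6, 7` there are shifts
`h_1 < ... < h_k` such that for at least `c X ^ (1/4)` integers `n ≤ X` all the `n + h_i` are
squarefree congruent numbers with `n + h_i ≡ r_i` modulo `8`.

Proof of (1).  The curves `y ^ 2 = x ^ 3 - 11 x - 14` and `y ^ 2 = x ^ 3 - 11 x + 14` are both isogenous to
`y ^ 2 = x ^ 3 - x`, and their right hand sides differ by the constant `28 = 7 * 2 ^ 2`.  For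
`x = 2 k + 1` this gives `n = (2 k + 3) (k ^ 2 - 2)` and `n + 7 = (2 k - 1) (k ^ 2 + 2 k - 1)`.  With
`a = 2 k + 3` one has `4 n = a (a ^ 2 - 6 a + 1)`, and `R = n + a ^ 2`, `S = a ^ 2` satisfy
`R S (R ^ 2 - S ^ 2) = n (a ^ 2 (a ^ 2 - 1) / 4) ^ 2`; similarly for `n + 7`.  Both numbers are
squarefree for a positive proportion of the `k ≡ 2` and of the `k ≡ 3` modulo `4`.

Proof of (2).  For odd `x > y` the number `(x ^ 4 - y ^ 4) / 16` is congruent, its class modulo `8`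
for `x ≡ 1` modulo `32` is given by `y` modulo `32` and can be prescribed, and its value minus
`x ^ 4 / 16` does not depend on `x`.  The `y_i` are the products of the eighth power of
the product `V` of the odd primes up to `32 (k + 1)` and small numbers, and `x = 1 + 32 V t`; then
no prime is an obstruction, and all the factors `x ^ 2 - y_i ^ 2`, `x ^ 2 + y_i ^ 2` are quadratic
in `t`, so that all the numbers are squarefree for a positive proportion of the `t`.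
-/

namespace Pool.Agent.Results.MP_8efaaa_nt.DistanceSeven

/-- `x² + a y² = z²`, `x² - a y² = t²` is solvable in positive integers -/
def Congruent (a : ℕ) : Prop :=
  ∃ x y z t : ℕ, 0 < x ∧ 0 < y ∧ 0 < z ∧ 0 < t ∧ x ^ 2 + a * y ^ 2 = z ^ 2 ∧
    x ^ 2 = a * y ^ 2 + t ^ 2

theorem seven : ∃ c : ℝ, 0 < c ∧ ∃ X₀ : ℕ, ∀ X : ℕ, X₀ ≤ X →
    ∀ r s : ℕ, (r = 6 ∧ s = 5 ∨ r = 7 ∧ s = 6) →
      c * (X : ℝ) ^ (1 / 3 : ℝ) ≤
        ({n : ℕ | n ≤ X ∧ n % 8 = r ∧ (n + 7) % 8 = s ∧ Squarefree n ∧ Squarefree (n + 7) ∧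
          Congruent n ∧ Congruent (n + 7)}.ncard : ℝ) := by
  classical
  obtain ⟨c1, hc1, h1⟩ := Pool.Agent.Run7.h681.CP.main 6 (Or.inl rfl)
  obtain ⟨c2, hc2, h2⟩ := Pool.Agent.Run7.h681.CP.main 7 (Or.inr rfl)
  obtain ⟨X1, h1⟩ := Filter.eventually_atTop.1 h1
  obtain ⟨X2, h2⟩ := Filter.eventually_atTop.1 h2
  refine ⟨min c1 c2, lt_min hc1 hc2, max X1 X2, ?_⟩
  intro X hX r s hrs
  have hX1 := h1 X ((le_max_left _ _).trans hX)
  have hX2 := h2 X ((le_max_right _ _).trans hX)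
  push_cast at hX1 hX2
  have hp : (0 : ℝ) ≤ (X : ℝ) ^ (1 / 3 : ℝ) := by positivity
  have hfin : {n : ℕ | n ≤ X ∧ n % 8 = r ∧ (n + 7) % 8 = s ∧ Squarefree n ∧ Squarefree (n + 7) ∧
      Congruent n ∧ Congruent (n + 7)}.Finite := (Set.finite_Iic X).subset fun n hn => hn.1
  have key : (((Finset.Icc 1 X).filter (Pool.Agent.Run7.h681.CP.Good r)).card : ℝ) ≤
      ({n : ℕ | n ≤ X ∧ n % 8 = r ∧ (n + 7) % 8 = s ∧ Squarefree n ∧ Squarefree (n + 7) ∧
          Congruent n ∧ Congruent (n + 7)}.ncard : ℝ) := by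
    rw [Nat.cast_le, ← Set.ncard_coe_finset]
    apply Set.ncard_le_ncard _ hfin
    intro n hn
    obtain ⟨ha, hb1, hb2, hb3, hb4, hb5⟩ := Finset.mem_filter.1 (Finset.mem_coe.1 hn)
    refine ⟨(Finset.mem_Icc.1 ha).2, hb1, by omega, hb2, hb3, hb4, hb5⟩
  rcases hrs with ⟨rfl, _⟩ | ⟨rfl, _⟩
  · refine (mul_le_mul_of_nonneg_right (min_le_left _ _) hp).trans (le_trans ?_ key)
    convert hX1
  · refine (mul_le_mul_of_nonneg_right (min_le_right _ _) hp).trans (le_trans ?_ key)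
    convert hX2

theorem patterns (k : ℕ) (r : Fin k → ℕ) (hr : ∀ i, r i = 5 ∨ r i = 6 ∨ r i = 7) :
    ∃ h : Fin k → ℕ, StrictMono h ∧ ∃ c : ℝ, 0 < c ∧ ∃ X₀ : ℕ, ∀ X : ℕ, X₀ ≤ X →
      c * (X : ℝ) ^ (1 / 4 : ℝ) ≤
        ({n : ℕ | n ≤ X ∧ ∀ i, (n + h i) % 8 = r i ∧ Squarefree (n + h i) ∧
          Congruent (n + h i)}.ncard : ℝ) := by
  classical
  obtain ⟨r', hr'⟩ : ∃ r' : ℕ → ℕ, r' = fun i => if hi : i < k then r ⟨i, hi⟩ else 5 := ⟨_, rfl⟩
  have hr1 : ∀ i : Fin k, r' i = r i := by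
    intro i
    rw [hr']
    simp only [i.2, dif_pos]
  have hr2 : ∀ i, r' i = 1 ∨ r' i = 2 ∨ r' i = 3 ∨ r' i = 5 ∨ r' i = 6 ∨ r' i = 7 := by
    intro i
    rw [hr']
    by_cases hi : i < k
    · simp only [hi, dif_pos]
      rcases hr ⟨i, hi⟩ with h | h | h <;> rw [h] <;> simp
    · simp only [hi, dif_neg, not_false_eq_true]
      simp
  obtain ⟨h, hmono, c, hc, hX⟩ := Pool.Agent.Run7.h681.CQ.patterns k r' hr2
  obtain ⟨X₀, hX⟩ := Filter.eventually_atTop.1 hX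
  refine ⟨fun i => h i, fun i j hij => hmono i j hij j.2, c, hc, X₀, fun X hX0 => ?_⟩
  have hX1 := hX X hX0
  push_cast at hX1
  have hfin : {n : ℕ | n ≤ X ∧ ∀ i : Fin k, (n + h i) % 8 = r i ∧ Squarefree (n + h i) ∧
      Congruent (n + h i)}.Finite := (Set.finite_Iic X).subset fun n hn => hn.1
  have key : (((Finset.Icc 1 X).filter (Pool.Agent.Run7.h681.CQ.Pat k h r')).card : ℝ) ≤
      ({n : ℕ | n ≤ X ∧ ∀ i : Fin k, (n + h i) % 8 = r i ∧ Squarefree (n + h i) ∧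
          Congruent (n + h i)}.ncard : ℝ) := by
    rw [Nat.cast_le, ← Set.ncard_coe_finset]
    apply Set.ncard_le_ncard _ hfin
    intro n hn
    obtain ⟨ha, hb⟩ := Finset.mem_filter.1 (Finset.mem_coe.1 hn)
    refine ⟨(Finset.mem_Icc.1 ha).2, fun i => ?_⟩
    obtain ⟨h1, h2, h3⟩ := hb i i.2
    rw [hr1] at h2
    exact ⟨h2, h1, h3⟩
  refine le_trans ?_ key
  convert hX1

/-- (1) **Squarefree congruent numbers at distance seven**, in the classes `6, 5` and in the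
classes `7, 6` modulo `8`.  (2) **All finite patterns of the classes `5, 6, 7` modulo `8`** occur
among the squarefree congruent numbers in bounded intervals. -/
theorem result :
    (∃ c : ℝ, 0 < c ∧ ∃ X₀ : ℕ, ∀ X : ℕ, X₀ ≤ X →
      ∀ r s : ℕ, (r = 6 ∧ s = 5 ∨ r = 7 ∧ s = 6) →
        c * (X : ℝ) ^ (1 / 3 : ℝ) ≤
          ({n : ℕ | n ≤ X ∧ n % 8 = r ∧ (n + 7) % 8 = s ∧ Squarefree n ∧ Squarefree (n + 7) ∧
            Congruent n ∧ Congruent (n + 7)}.ncard : ℝ)) ∧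
    (∀ (k : ℕ) (r : Fin k → ℕ), (∀ i, r i = 5 ∨ r i = 6 ∨ r i = 7) →
      ∃ h : Fin k → ℕ, StrictMono h ∧ ∃ c : ℝ, 0 < c ∧ ∃ X₀ : ℕ, ∀ X : ℕ, X₀ ≤ X →
        c * (X : ℝ) ^ (1 / 4 : ℝ) ≤
          ({n : ℕ | n ≤ X ∧ ∀ i, (n + h i) % 8 = r i ∧ Squarefree (n + h i) ∧
            Congruent (n + h i)}.ncard : ℝ)) :=
  ⟨seven, patterns⟩

end Pool.Agent.Results.MP_8efaaa_nt.DistanceSeven
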